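import Pool.Agent.H38.Hyp.Fin

/-!
Collinearity logic with groups of at most three points is hard for the existential theory of the
reals.
-/

namespace Pool.Agent.Results.MP_8c8e41_lc.Three

open Pool.Agent.H38.NP Pool.Agent.H38.ER Pool.Agent.H38.Hyp

theorem result : ERHardOn (Groups 3) ColSat := col_erh.hardOn

end Pool.Agent.Results.MP_8c8e41_lc.Three
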